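import Pool.Agent.Helper18.RD.Stmts
import Pool.Agent.Helper30.Hall.Div

set_option autoImplicit false

namespace Pool.Agent.Helper96.RD

open Finset Pool.Agent.Helper18.RD

/-- the divisor bound -/
theorem tau_le (ε : ℝ) (hε : 0 < ε) : ∃ C : ℝ, 1 ≤ C ∧ ∀ n : ℕ, n ≠ 0 →
    ((n.divisors.card : ℕ) : ℝ) ≤ C * (n : ℝ) ^ ε := by
  obtain ⟨k, hk⟩ := exists_nat_gt (1 / ε)
  have hk0 : (0 : ℝ) < k := lt_trans (by positivity) hk
  have hk1 : 1 / (k : ℝ) ≤ ε := by
    rw [div_le_iff₀ hk0]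
    rw [div_lt_iff₀ hε] at hk
    linarith
  have hkn : k ≠ 0 := by
    rintro rfl
    simp at hk0
  obtain ⟨C, hC1, hC⟩ := Pool.Helper30.Hall.card_divisors_pow_le k
  have hC1' : (1 : ℝ) ≤ C := by exact_mod_cast hC1
  refine ⟨C, hC1', fun n hn => ?_⟩
  have h1 : (((n.divisors.card : ℕ) : ℝ)) ^ k ≤ C * n := by exact_mod_cast hC n hn
  have hn1 : (1 : ℝ) ≤ n := by exact_mod_cast Nat.one_le_iff_ne_zero.2 hn
  have h2 : ((n.divisors.card : ℕ) : ℝ) = ((((n.divisors.card : ℕ) : ℝ)) ^ k) ^ (1 / (k : ℝ)) := by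
    rw [one_div, Real.pow_rpow_inv_natCast (Nat.cast_nonneg _) hkn]
  rw [h2]
  calc ((((n.divisors.card : ℕ) : ℝ)) ^ k) ^ (1 / (k : ℝ)) ≤ ((C : ℝ) * n) ^ (1 / (k : ℝ)) :=
        Real.rpow_le_rpow (pow_nonneg (Nat.cast_nonneg _) _) h1 (by positivity)
    _ = (C : ℝ) ^ (1 / (k : ℝ)) * (n : ℝ) ^ (1 / (k : ℝ)) :=
        Real.mul_rpow (by positivity) (by positivity)
    _ ≤ C * (n : ℝ) ^ ε := by
        have h3 : (C : ℝ) ^ (1 / (k : ℝ)) ≤ (C : ℝ) ^ (1 : ℝ) := by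
          apply Real.rpow_le_rpow_of_exponent_le hC1'
          rw [div_le_one hk0]
          exact_mod_cast Nat.one_le_iff_ne_zero.2 hkn
        rw [Real.rpow_one] at h3
        have h4 : (n : ℝ) ^ (1 / (k : ℝ)) ≤ (n : ℝ) ^ ε :=
          Real.rpow_le_rpow_of_exponent_le hn1 hk1
        exact mul_le_mul h3 h4 (by positivity) (by positivity)

/-- the arithmetic: `u`, `v` with `B u v` a square. -/
theorem decomp (B u v : ℤ) (hu : u ≠ 0) (h : IsSquare (B * u * v)) :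
    ∃ g s α : ℕ, g ∣ (u - v).natAbs ∧ s ∣ B.natAbs ∧ u.natAbs = g * s * α ^ 2 := by
  obtain ⟨t, ht⟩ := h
  have hg : 0 < Int.gcd u v := Int.gcd_pos_of_ne_zero_left _ hu
  obtain ⟨g, hgd⟩ : ∃ g, g = Int.gcd u v := ⟨_, rfl⟩
  rw [← hgd] at hg
  have hgu : g ∣ u.natAbs := by rw [hgd]; exact Nat.gcd_dvd_left _ _
  have hgv : g ∣ v.natAbs := by rw [hgd]; exact Nat.gcd_dvd_right _ _
  obtain ⟨a, ha⟩ := hgu
  obtain ⟨b, hb⟩ := hgv
  have hcop : Nat.Coprime a b := by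
    have h1 : Nat.gcd (g * a) (g * b) = g := by
      rw [← ha, ← hb, hgd]
      rfl
    rw [Nat.gcd_mul_left] at h1
    exact Nat.eq_of_mul_eq_mul_left hg (by rw [h1, mul_one])
  have ha0 : 0 < a := by
    rcases Nat.eq_zero_or_pos a with h0 | h0
    · subst h0
      rw [mul_zero, Int.natAbs_eq_zero] at ha
      exact absurd ha hu
    · exact h0
  obtain ⟨s, α, hsα, hs⟩ := Nat.sq_mul_squarefree a
  have hα0 : 0 < α := by
    rcases Nat.eq_zero_or_pos α with h0 | h0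
    · subst h0
      simp at hsα
      omega
    · exact h0
  refine ⟨g, s, α, ?_, ?_, ?_⟩
  · have h1 : (g : ℤ) ∣ u := Int.natCast_dvd.2 ⟨a, ha⟩
    have h2 : (g : ℤ) ∣ v := Int.natCast_dvd.2 ⟨b, hb⟩
    exact Int.natCast_dvd.1 (dvd_sub h1 h2)
  · -- the square
    have h1 : B.natAbs * u.natAbs * v.natAbs = t.natAbs ^ 2 := by
      have := congrArg Int.natAbs ht
      rw [Int.natAbs_mul, Int.natAbs_mul, Int.natAbs_mul] at this
      rw [this, sq]
    rw [ha, hb] at h1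
    have h2 : (g * α) ^ 2 * (s * (b * B.natAbs)) = t.natAbs ^ 2 := by
      rw [← h1, ← hsα]
      ring
    have h3 : (g * α) ∣ t.natAbs := by
      rw [← Nat.pow_dvd_pow_iff (two_ne_zero)]
      exact ⟨_, h2.symm⟩
    obtain ⟨r, hr⟩ := h3
    rw [hr, mul_pow (g * α) r 2] at h2
    have h40 : 0 < (g * α) ^ 2 := by positivity
    have h4 : s * (b * B.natAbs) = r ^ 2 :=
      Nat.eq_of_mul_eq_mul_left h40 h2
    have h5 : s ∣ r := by
      rw [← hs.dvd_pow_iff_dvd (two_ne_zero)]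
      exact ⟨_, h4.symm⟩
    obtain ⟨w, hw⟩ := h5
    have hs0 : 0 < s := Nat.pos_of_ne_zero hs.ne_zero
    have h6 : b * B.natAbs = s * w ^ 2 := by
      apply Nat.eq_of_mul_eq_mul_left hs0
      rw [h4, hw]
      ring
    have h7 : s ∣ b * B.natAbs := ⟨_, h6⟩
    have h8 : Nat.Coprime s b := Nat.Coprime.coprime_dvd_left ⟨α ^ 2, by rw [← hsα]; ring⟩ hcop
    exact h8.dvd_of_dvd_mul_left h7
  · rw [ha, ← hsα]
    ring

theorem card_le (N x y : ℕ) (B : ℤ) (hx : x < N) (hxy : x ≠ y) (hB : B ≠ 0) :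
    ((range N).filter (fun n : ℕ => n ≠ x ∧ n ≠ y ∧
      IsSquare (B * ((n : ℤ) - x) * ((n : ℤ) - y)))).card ≤
    2 * ((((x : ℤ) - y).natAbs.divisors).card * (B.natAbs.divisors.card * (Nat.sqrt N + 1))) := by
  classical
  have h1 : (range N).filter (fun n : ℕ => n ≠ x ∧ n ≠ y ∧
      IsSquare (B * ((n : ℤ) - x) * ((n : ℤ) - y))) ⊆
      ((({1, -1} : Finset ℤ)) ×ˢ (((x : ℤ) - y).natAbs.divisors ×ˢ
        (B.natAbs.divisors ×ˢ range (Nat.sqrt N + 1)))).image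
        (fun t : ℤ × (ℕ × (ℕ × ℕ)) =>
          ((x : ℤ) + t.1 * ((t.2.1 * t.2.2.1 * t.2.2.2 ^ 2 : ℕ) : ℤ)).toNat) := by
    intro n hn
    rw [mem_filter, mem_range] at hn
    obtain ⟨hnN, hnx, hny, hsq⟩ := hn
    have hu : (n : ℤ) - x ≠ 0 := by omega
    have hv : (n : ℤ) - y ≠ 0 := by omega
    obtain ⟨g, s, α, hg, hs, hα⟩ := decomp B _ _ hu hsq
    rw [mem_image]
    have hα0 : 1 ≤ α := by
      rcases Nat.eq_zero_or_pos α with h0 | h0
      · subst h0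
        simp only [ne_eq, OfNat.ofNat_ne_zero, not_false_eq_true, zero_pow, mul_zero] at hα
        omega
      · exact h0
    have hgs : 1 ≤ g * s := by
      rcases Nat.eq_zero_or_pos (g * s) with h0 | h0
      · rw [h0, zero_mul, Int.natAbs_eq_zero] at hα
        exact absurd hα hu
      · exact h0
    have hαN : α ^ 2 < N := by
      have h2 : α ^ 2 ≤ g * s * α ^ 2 := Nat.le_mul_of_pos_left _ hgs
      have h3 : ((n : ℤ) - x).natAbs < N := by omega
      omega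
    have hα2 : α ≤ Nat.sqrt N := by
      rw [Nat.le_sqrt]
      nlinarith
    have hd1 : g ∈ ((x : ℤ) - y).natAbs.divisors := by
      rw [Nat.mem_divisors]
      refine ⟨?_, by omega⟩
      have h2 : (((n : ℤ) - x) - ((n : ℤ) - y)).natAbs = ((x : ℤ) - y).natAbs := by omega
      rw [← h2]
      exact hg
    have hd2 : s ∈ B.natAbs.divisors := by
      rw [Nat.mem_divisors]
      exact ⟨hs, by omega⟩
    rcases le_total 0 ((n : ℤ) - x) with h0 | h0
    · refine ⟨(1, (g, (s, α))), ?_, ?_⟩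
      · simp only [mem_product, mem_insert, mem_singleton, mem_range]
        exact ⟨by norm_num, hd1, hd2, by omega⟩
      · simp only
        rw [← hα]
        omega
    · refine ⟨(-1, (g, (s, α))), ?_, ?_⟩
      · simp only [mem_product, mem_insert, mem_singleton, mem_range]
        exact ⟨by norm_num, hd1, hd2, by omega⟩
      · simp only
        rw [← hα]
        omega
  refine (card_le_card h1).trans (card_image_le.trans ?_)
  rw [card_product, card_product, card_product, card_range]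
  have h2 : (({1, -1} : Finset ℤ)).card = 2 := by decide
  rw [h2]

theorem st_DV : ST_DV := by
  intro ε hε
  obtain ⟨C, hC1, hC⟩ := tau_le (ε / 21) (by positivity)
  refine ⟨4 * C ^ 2 * 256 ^ (ε / 21), by positivity, ?_⟩
  intro N x y B hN hx hy hxy hB hBN
  have hN1 : (1 : ℝ) ≤ N := by exact_mod_cast hN
  have hN0 : (0 : ℝ) < N := by linarith
  have h1 : ((((range N).filter (fun n : ℕ => n ≠ x ∧ n ≠ y ∧
      IsSquare (B * ((n : ℤ) - x) * ((n : ℤ) - y)))).card : ℕ) : ℝ) ≤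
      2 * (((((x : ℤ) - y).natAbs.divisors).card : ℝ) * ((B.natAbs.divisors.card : ℝ) *
        ((Nat.sqrt N : ℝ) + 1))) := by
    exact_mod_cast card_le N x y B hx hxy hB
  refine h1.trans ?_
  have hxy0 : ((x : ℤ) - y).natAbs ≠ 0 := by omega
  have h2 := hC _ hxy0
  have h3 := hC B.natAbs (by omega)
  have h4 : ((((x : ℤ) - y).natAbs : ℕ) : ℝ) ≤ N := by
    have : ((x : ℤ) - y).natAbs ≤ N := by omega
    exact_mod_cast this
  have h5 : ((B.natAbs : ℕ) : ℝ) ≤ 256 * (N : ℝ) ^ 20 := by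
    rw [Nat.cast_natAbs, Int.cast_abs]
    exact hBN
  have h6 : ((((x : ℤ) - y).natAbs.divisors).card : ℝ) ≤ C * (N : ℝ) ^ (ε / 21) :=
    h2.trans (mul_le_mul_of_nonneg_left (Real.rpow_le_rpow (by positivity) h4 (by positivity))
      (by positivity))
  have h7 : ((B.natAbs.divisors).card : ℝ) ≤ C * (256 ^ (ε / 21) * (N : ℝ) ^ (20 * (ε / 21))) := by
    refine h3.trans (mul_le_mul_of_nonneg_left ?_ (by positivity))
    calc ((B.natAbs : ℕ) : ℝ) ^ (ε / 21) ≤ (256 * (N : ℝ) ^ 20) ^ (ε / 21) :=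
          Real.rpow_le_rpow (by positivity) h5 (by positivity)
      _ = 256 ^ (ε / 21) * (N : ℝ) ^ (20 * (ε / 21)) := by
          rw [Real.mul_rpow (by norm_num) (by positivity), ← Real.rpow_natCast (N : ℝ) 20,
            ← Real.rpow_mul hN0.le]
          norm_num
  have h8 : (Nat.sqrt N : ℝ) + 1 ≤ 2 * (N : ℝ) ^ (1 / 2 : ℝ) := by
    have h9 : (Nat.sqrt N : ℝ) ≤ Real.sqrt N := Real.nat_sqrt_le_real_sqrt
    have h10 : (1 : ℝ) ≤ Real.sqrt N := by
      rw [Real.one_le_sqrt]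
      exact hN1
    rw [← Real.sqrt_eq_rpow]
    linarith
  calc 2 * (((((x : ℤ) - y).natAbs.divisors).card : ℝ) * ((B.natAbs.divisors.card : ℝ) *
        ((Nat.sqrt N : ℝ) + 1)))
      ≤ 2 * ((C * (N : ℝ) ^ (ε / 21)) * ((C * (256 ^ (ε / 21) * (N : ℝ) ^ (20 * (ε / 21)))) *
        (2 * (N : ℝ) ^ (1 / 2 : ℝ)))) := by gcongr
    _ = 4 * C ^ 2 * 256 ^ (ε / 21) * (((N : ℝ) ^ (ε / 21) * (N : ℝ) ^ (20 * (ε / 21))) *
        (N : ℝ) ^ (1 / 2 : ℝ)) := by ring
    _ = 4 * C ^ 2 * 256 ^ (ε / 21) * (N : ℝ) ^ (1 / 2 + ε) := by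
        rw [← Real.rpow_add hN0, ← Real.rpow_add hN0]
        have : ε / 21 + 20 * (ε / 21) + 1 / 2 = 1 / 2 + ε := by ring
        rw [this]

end Pool.Agent.Helper96.RD
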